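import Pool.Agent.Lib_helper28.Chrom.Pos
import Pool.Agent.Lib_helper79.Chrom.ExtMove

/-!
# MP_fabb84_co, Q1: the chromatic polynomial of an `α`-tough graph has no zero in `(1, 2)`

The chromatic polynomial is given by its defining property: its value at every positive integer `q`
is the number of proper colourings with `q` colours.
-/

set_option autoImplicit false

open Polynomial

namespace Pool.Agent.Results.MP_fabb84_co.AlphaToughChromatic

/-- `P` is the chromatic polynomial of the graph `G`: for every positive integer `q`, the value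
`P(q)` is the number of proper colourings of the vertices of `G` with `q` colours. -/
def IsChromaticPolynomial {V : Type*} (G : SimpleGraph V) (P : ℝ[X]) : Prop :=
  ∀ q : ℕ, 0 < q → P.eval (q : ℝ) = (Nat.card (G.Coloring (Fin q)) : ℝ)

/-- The graph `G` is `α`-tough: it is connected, and for every non-empty independent set `S` of
vertices the graph `G ∖ S` has at most `|S|` connected components. -/
def AlphaTough {V : Type*} (G : SimpleGraph V) : Prop :=
  G.Connected ∧ ∀ S : Set V, S.Nonempty → G.IsIndepSet S →
    Nat.card (G.induce Sᶜ).ConnectedComponent ≤ S.ncard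

open Pool.Agent.Chrom in
theorem isChromaticPolynomial_poly {V : Type*} [Fintype V] [DecidableEq V] (G : SimpleGraph V)
    (q : ℕ) : (poly (Indep G)).eval (q : ℝ) = (Nat.card (G.Coloring (Fin q)) : ℝ) := by
  rw [poly_eval_nat]
  congr 1
  unfold cnt
  refine Nat.card_congr
    { toFun := fun f => SimpleGraph.Coloring.mk f.1 (fun {u v} huv =>
        (good_indep_iff G f.1).mp f.2 u v huv)
      invFun := fun c => ⟨fun v => c v, (good_indep_iff G _).mpr fun u v huv => c.valid huv⟩
      left_inv := fun f => rfl
      right_inv := fun c => by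
        ext v
        rfl }

theorem unique {V : Type*} {G : SimpleGraph V} {P Q : ℝ[X]} (hP : IsChromaticPolynomial G P)
    (hQ : IsChromaticPolynomial G Q) : P = Q := by
  refine Polynomial.eq_of_infinite_eval_eq P Q (Set.Infinite.mono
    (s := Set.range (fun N : ℕ => ((N + 1 : ℕ) : ℝ))) ?_ (Set.infinite_range_of_injective ?_))
  · rintro _ ⟨n, rfl⟩
    change P.eval ((n + 1 : ℕ) : ℝ) = Q.eval ((n + 1 : ℕ) : ℝ)
    rw [hP (n + 1) n.succ_pos, hQ (n + 1) n.succ_pos]
  · intro a b h
    have h1 : ((a + 1 : ℕ) : ℝ) = ((b + 1 : ℕ) : ℝ) := h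
    have h2 : a + 1 = b + 1 := Nat.cast_injective h1
    omega

/-- The theorem for graphs on a type. -/
theorem aux {V : Type} [Fintype V] [DecidableEq V] (G : SimpleGraph V) (hG : AlphaTough G)
    {P : ℝ[X]} (hP : IsChromaticPolynomial G P) (x : ℝ) (h1 : 1 < x) (h2 : x < 2) :
    P.eval x ≠ 0 ∧ (2 ≤ Nat.card V → 0 < (-1 : ℝ) ^ Nat.card V * P.eval x) := by
  classical
  have hPe : P = Chrom.poly (Chrom.Indep G) :=
    unique hP (fun q _ => isChromaticPolynomial_poly G q)
  have hx : P.eval x = ∑ A ∈ G.edgeFinset.powerset, (-1 : ℝ) ^ A.card *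
      x ^ Nat.card (SimpleGraph.fromEdgeSet (A : Set (Sym2 V))).ConnectedComponent := by
    rw [Chrom.edge_expansion G x, hPe]
  have hα : ∀ S : Set V, S.Nonempty → S.Pairwise (fun u v => ¬ G.Adj u v) →
      Nat.card (G.induce Sᶜ).ConnectedComponent ≤ S.ncard := fun S hS hp => hG.2 S hS hp
  constructor
  · rw [hx]
    exact Chrom.final_of Chrom.stmtExt V G hG.1 hα x h1 h2
  · intro hc
    rw [Nat.card_eq_fintype_card] at hc ⊢
    rw [hx]
    exact Chrom.pos_of Chrom.stmtExt G hG.1 hα hc x h1 h2

theorem card_coloring_iso {V W : Type*} {G : SimpleGraph V} {H : SimpleGraph W} (e : G ≃g H)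
    (q : ℕ) : Nat.card (G.Coloring (Fin q)) = Nat.card (H.Coloring (Fin q)) :=
  Nat.card_congr
    { toFun := fun c => c.comp e.symm.toHom
      invFun := fun c => c.comp e.toHom
      left_inv := fun c => by
        ext v
        simp
      right_inv := fun c => by
        ext v
        simp }

theorem alphaTough_iso {V W : Type*} {G : SimpleGraph V} {H : SimpleGraph W} (e : G ≃g H)
    (hG : AlphaTough G) : AlphaTough H := by
  refine ⟨(e.connected_iff).mp hG.1, ?_⟩
  intro S hS hI
  have h1 := hG.2 (e ⁻¹' S) (hS.preimage e.surjective) (by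
    intro u hu v hv huv hadj
    exact hI hu hv (fun h => huv (e.injective h)) (e.map_adj_iff.mpr hadj))
  have h2 : (e ⁻¹' S).ncard = S.ncard :=
    Set.ncard_preimage_of_injective_subset_range e.injective (by
      intro x _
      exact e.surjective x)
  rw [h2] at h1
  refine le_of_eq_of_le ?_ h1
  have e2 : G.induce (e ⁻¹' S)ᶜ ≃g H.induce Sᶜ :=
    { toEquiv := e.toEquiv.subtypeEquiv fun a => Iff.rfl
      map_rel_iff' := by
        intro a b
        exact e.map_adj_iff }
  exact (Nat.card_congr e2.connectedComponentEquiv).symm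

/-- **Every finite graph has exactly one chromatic polynomial, and the chromatic polynomial of a
finite `α`-tough graph has no zero in `(1, 2)`; if the graph has `n ≥ 2` vertices, then
`(-1)^n χ(G; x) > 0` for every real `x` with `1 < x < 2`.** -/
theorem result :
    (∀ (V : Type*) [Finite V] (G : SimpleGraph V), ∃! P : ℝ[X], IsChromaticPolynomial G P) ∧
    ∀ (V : Type*) [Finite V] (G : SimpleGraph V), AlphaTough G → ∀ P : ℝ[X],
      IsChromaticPolynomial G P → ∀ x : ℝ, 1 < x → x < 2 →
        P.eval x ≠ 0 ∧ (2 ≤ Nat.card V → 0 < (-1 : ℝ) ^ Nat.card V * P.eval x) := by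
  constructor
  · intro V _ G
    classical
    have := Fintype.ofFinite V
    exact ⟨Chrom.poly (Chrom.Indep G), fun q _ => isChromaticPolynomial_poly G q,
      fun Q hQ => unique hQ (fun q _ => isChromaticPolynomial_poly G q)⟩
  · intro V _ G hG P hP x h1 h2
    classical
    obtain ⟨n, ⟨e⟩⟩ := Finite.exists_equiv_fin V
    let H : SimpleGraph (Fin n) := G.comap e.symm
    let i : G ≃g H := (SimpleGraph.Iso.comap e.symm G).symm
    have hH : AlphaTough H := alphaTough_iso i hG
    have hPH : IsChromaticPolynomial H P := fun q hq => by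
      rw [hP q hq, card_coloring_iso i]
    have h3 := aux H hH hPH x h1 h2
    rw [Nat.card_congr e]
    exact h3

end Pool.Agent.Results.MP_fabb84_co.AlphaToughChromatic
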